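import Mathlib
import Pool.Agent.MP_ab80ef_co.Defs

section

/- Numerical part: binary digit sums, their partial sums `phi`, and the profile `tau`. -/

namespace Pool.Agent.MP_ab80ef_co

open Finset

/-- binary digit sum -/
def pc (m : ℕ) : ℕ := (Nat.digits 2 m).sum

lemma pc_zero : pc 0 = 0 := by simp [pc]

lemma pc_eq (m : ℕ) : pc m = m % 2 + pc (m / 2) := by
  rcases Nat.eq_zero_or_pos m with rfl | h
  · simp [pc]
  · unfold pc
    rw [Nat.digits_def' (by norm_num) h]
    simp

lemma pc_two_mul (m : ℕ) : pc (2 * m) = pc m := by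
  rw [pc_eq]; simp

lemma pc_two_mul_add_one (m : ℕ) : pc (2 * m + 1) = pc m + 1 := by
  rw [pc_eq]
  have h1 : (2 * m + 1) % 2 = 1 := by omega
  have h2 : (2 * m + 1) / 2 = m := by omega
  rw [h1, h2]; ring

lemma pc_eq_sum (k : ℕ) : ∀ m, m < 2 ^ k →
    pc m = ∑ j ∈ range k, if m.testBit j then 1 else 0 := by
  induction k with
  | zero => intro m hm; have : m = 0 := by omega
            subst this; simp [pc_zero]
  | succ k ih =>
    intro m hm
    rw [sum_range_succ', pc_eq, ih (m / 2) (by omega)]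
    simp only [Nat.testBit_add_one, Nat.testBit_zero]
    rcases Nat.mod_two_eq_zero_or_one m with h | h <;> simp [h, add_comm]

/-- number of edges spanned by the first `a` points in binary order -/
def phi (a : ℕ) : ℕ := ∑ m ∈ range a, pc m

lemma phi_zero : phi 0 = 0 := by simp [phi]

lemma phi_succ (a : ℕ) : phi (a + 1) = phi a + pc a := by simp [phi, sum_range_succ]

lemma phi_two_mul (a : ℕ) : phi (2 * a) = 2 * phi a + a := by
  induction a with
  | zero => simp [phi]
  | succ a ih =>
    have : 2 * (a + 1) = 2 * a + 1 + 1 := by ring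
    rw [this, phi_succ, phi_succ, ih, pc_two_mul, pc_two_mul_add_one, phi_succ]; ring

lemma phi_two_mul_add_one (a : ℕ) : phi (2 * a + 1) = phi a + phi (a + 1) + a := by
  rw [phi_succ, phi_two_mul, pc_two_mul, phi_succ]; ring

lemma phi_add_aux (N : ℕ) : ∀ a b, a + b ≤ N → phi a + phi b + min a b ≤ phi (a + b) := by
  induction N with
  | zero => intro a b h; have : a = 0 := by omega
            have : b = 0 := by omega
            subst_vars; simp [phi_zero]
  | succ N ih =>
    intro a b h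
    rcases Nat.eq_zero_or_pos a with rfl | ha
    · simp [phi_zero]
    rcases Nat.eq_zero_or_pos b with rfl | hb
    · simp [phi_zero]
    obtain ⟨a', rfl | rfl⟩ := Nat.even_or_odd' a <;> obtain ⟨b', rfl | rfl⟩ := Nat.even_or_odd' b
    · have e : 2 * a' + 2 * b' = 2 * (a' + b') := by ring
      have h1 := ih a' b' (by omega)
      rw [e, phi_two_mul, phi_two_mul, phi_two_mul]; omega
    · have e : 2 * a' + (2 * b' + 1) = 2 * (a' + b') + 1 := by ring
      have h1 := ih a' b' (by omega)
      have h2 := ih a' (b' + 1) (by omega)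
      rw [e, phi_two_mul_add_one, phi_two_mul, phi_two_mul_add_one]
      rw [← add_assoc] at h2; omega
    · have e : 2 * a' + 1 + 2 * b' = 2 * (a' + b') + 1 := by ring
      have h1 := ih a' b' (by omega)
      have h2 := ih (a' + 1) b' (by omega)
      have e2 : a' + 1 + b' = a' + b' + 1 := by ring
      rw [e, phi_two_mul_add_one, phi_two_mul, phi_two_mul_add_one]
      rw [e2] at h2; omega
    · have e : 2 * a' + 1 + (2 * b' + 1) = 2 * (a' + b' + 1) := by ring
      have h1 := ih a' (b' + 1) (by omega)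
      have h2 := ih (a' + 1) b' (by omega)
      have e2 : a' + 1 + b' = a' + b' + 1 := by ring
      rw [e, phi_two_mul_add_one, phi_two_mul, phi_two_mul_add_one]
      rw [e2] at h2; rw [← add_assoc] at h1; omega

lemma phi_add (a b : ℕ) : phi a + phi b + min a b ≤ phi (a + b) := phi_add_aux _ a b le_rfl

lemma phi_symm (t : ℕ) : ∀ x y, x + y = 2 ^ t → 2 * phi y + t * x = 2 * phi x + t * y := by
  induction t with
  | zero =>
    intro x y h
    have h1 : phi 1 = 0 := by simp [phi, pc_zero]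
    have : (x = 0 ∧ y = 1) ∨ (x = 1 ∧ y = 0) := by omega
    rcases this with ⟨rfl, rfl⟩ | ⟨rfl, rfl⟩ <;> simp [h1, phi_zero]
  | succ t ih =>
    intro x y h
    rw [pow_succ] at h
    obtain ⟨a, rfl | rfl⟩ := Nat.even_or_odd' x <;> obtain ⟨b, rfl | rfl⟩ := Nat.even_or_odd' y
    · have h1 := ih a b (by omega)
      rw [phi_two_mul, phi_two_mul]; nlinarith
    · omega
    · omega
    · have h1 := ih (a + 1) b (by omega)
      have h2 := ih a (b + 1) (by omega)
      rw [phi_two_mul_add_one, phi_two_mul_add_one]; nlinarith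

/-- edge boundary in `Q_s` of the first `x` points -/
def tau (s x : ℕ) : ℤ := s * x - 2 * phi x

lemma tau_succ (s x : ℕ) : tau (s + 1) x = tau s x + x := by
  unfold tau; push_cast; ring

lemma tau_symm (s x y : ℕ) (h : x + y = 2 ^ s) : tau s x = tau s y := by
  have := phi_symm s x y h
  unfold tau
  have h2 : ((2 * phi y + s * x : ℕ) : ℤ) = ((2 * phi x + s * y : ℕ) : ℤ) := by rw [this]
  push_cast at h2; linarith

lemma tau_ge_min (s : ℕ) : ∀ x y, x + y = 2 ^ s → ((min x y : ℕ) : ℤ) ≤ tau s x := by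
  induction s with
  | zero =>
    intro x y h
    have h1 : phi 1 = 0 := by simp [phi, pc_zero]
    have : (x = 0 ∧ y = 1) ∨ (x = 1 ∧ y = 0) := by omega
    rcases this with ⟨rfl, rfl⟩ | ⟨rfl, rfl⟩ <;> simp [tau, h1, phi_zero]
  | succ s ih =>
    have key : ∀ x y, x + y = 2 ^ (s + 1) → x ≤ y → ((min x y : ℕ) : ℤ) ≤ tau (s + 1) x := by
      intro x y h hxy
      rw [pow_succ] at h
      have h1 := ih x (2 ^ s - x) (by omega)
      rw [tau_succ, min_eq_left hxy]
      have : (0 : ℤ) ≤ ((min x (2 ^ s - x) : ℕ) : ℤ) := by positivity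
      linarith
    intro x y h
    rcases le_total x y with hxy | hxy
    · exact key x y h hxy
    · rw [tau_symm _ x y h, min_comm]; exact key y x (by omega) hxy

lemma tau_nonneg (s x : ℕ) (h : x ≤ 2 ^ s) : 0 ≤ tau s x := by
  have := tau_ge_min s x (2 ^ s - x) (by omega)
  have h2 : (0 : ℤ) ≤ ((min x (2 ^ s - x) : ℕ) : ℤ) := by positivity
  linarith

lemma tau_window (s x : ℕ) (h1 : 2 ^ s ≤ 4 * x) (h2 : 4 * x ≤ 3 * 2 ^ s) :
    (2 : ℤ) ^ s ≤ 2 * tau s x := by
  rcases s with _ | s
  · omega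
  have key : ∀ x, 2 ^ (s + 1) ≤ 4 * x → x ≤ 2 ^ s → (2 : ℤ) ^ (s + 1) ≤ 2 * tau (s + 1) x := by
    intro x h1 h2
    have h3 := tau_ge_min s x (2 ^ s - x) (by omega)
    rw [tau_succ]
    have h4 : 2 ^ s ≤ x + min x (2 ^ s - x) := by rw [pow_succ] at h1; omega
    have h5 : ((2 ^ s : ℕ) : ℤ) ≤ ((x + min x (2 ^ s - x) : ℕ) : ℤ) := by exact_mod_cast h4
    push_cast at h5 h3 ⊢
    rw [pow_succ]; linarith
  rcases le_total x (2 ^ s) with h | h
  · exact key x h1 h
  · rw [pow_succ] at h2
    rw [tau_symm (s + 1) x (2 ^ (s + 1) - x) (by rw [pow_succ]; omega)]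
    apply key
    · rw [pow_succ]; omega
    · rw [pow_succ]; omega

lemma two_mul_le_two_pow (j : ℕ) (hj : 1 ≤ j) : 2 * j ≤ 2 ^ j := by
  obtain ⟨k, rfl⟩ : ∃ k, j = k + 1 := ⟨j - 1, by omega⟩
  have := Nat.lt_two_pow_self (n := k)
  rw [pow_succ]; omega

lemma tau_lower (j : ℕ) : ∀ s x, 2 ^ s ≤ 2 ^ (j + 1) * x → 2 * x ≤ 2 ^ s →
    ((j + 1 : ℕ) : ℤ) * 2 ^ s ≤ 2 ^ (j + 1) * tau s x := by
  induction j with
  | zero =>
    intro s x h1 h2
    have h3 := tau_window s x (by omega) (by omega)
    simpa using h3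
  | succ j ih =>
    intro s x h1 h2
    by_cases hw : 2 ^ s ≤ 4 * x
    · have h3 := tau_window s x hw (by omega)
      have h4 := two_mul_le_two_pow (j + 1 + 1) (by omega)
      have h5 : ((2 * (j + 1 + 1) : ℕ) : ℤ) ≤ ((2 ^ (j + 1 + 1) : ℕ) : ℤ) := by exact_mod_cast h4
      push_cast at h5 ⊢
      have h6 : (0 : ℤ) < 2 ^ s := by positivity
      have h7 : (0 : ℤ) < 2 ^ (j + 1 + 1) := by positivity
      nlinarith
    · rcases s with _ | s
      · have : x = 0 := by omega
        subst this; simp at h1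
      · have h3 := ih s x (by rw [pow_succ, pow_succ 2 (j + 1)] at h1; nlinarith)
          (by rw [pow_succ] at hw; omega)
        rw [tau_succ]
        have h5 : ((2 ^ (s + 1) : ℕ) : ℤ) ≤ ((2 ^ (j + 1 + 1) * x : ℕ) : ℤ) := by exact_mod_cast h1
        push_cast at h5 h3 ⊢
        rw [pow_succ 2 s, pow_succ 2 (j + 1)] at *
        nlinarith

lemma split_bound (s x y : ℕ) (h : x + y = 2 ^ (s + 1)) :
    (2 * phi y + 2 * phi x + 2 * x : ℤ) = (s + 1) * 2 ^ (s + 1) - 2 * tau s x := by
  have h1 := tau_symm (s + 1) x y h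
  have h2 := tau_succ s x
  have h3 : ((x + y : ℕ) : ℤ) = ((2 ^ (s + 1) : ℕ) : ℤ) := by rw [h]
  unfold tau at *
  push_cast at *
  rw [← h3]; linarith

end Pool.Agent.MP_ab80ef_co

end

section

/- The cube on natural numbers (bits), edge counts, isoperimetry, subcube splitting. -/

namespace Pool.Agent.MP_ab80ef_co

open Finset

/-- flip bit `i` -/
def fl (i x : ℕ) : ℕ := x ^^^ 2 ^ i

lemma testBit_fl (i x j : ℕ) : (fl i x).testBit j = (x.testBit j ^^ decide (i = j)) := by
  simp [fl, Nat.testBit_two_pow]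

@[simp] lemma testBit_fl_self (i x : ℕ) : (fl i x).testBit i = !x.testBit i := by
  simp [testBit_fl]

lemma testBit_fl_ne {i j : ℕ} (x : ℕ) (h : i ≠ j) : (fl i x).testBit j = x.testBit j := by
  simp [testBit_fl, h]

@[simp] lemma fl_fl (i x : ℕ) : fl i (fl i x) = x := by
  simp [fl]

lemma fl_comm (i j x : ℕ) : fl i (fl j x) = fl j (fl i x) := by
  apply Nat.eq_of_testBit_eq; intro k
  simp only [testBit_fl]
  cases x.testBit k <;> cases decide (i = k) <;> cases decide (j = k) <;> rfl

lemma fl_inj (i : ℕ) : Function.Injective (fl i) := by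
  intro x y h
  have := congrArg (fl i) h
  simpa using this

lemma fl_lt {n i x : ℕ} (hi : i < n) (hx : x < 2 ^ n) : fl i x < 2 ^ n :=
  Nat.xor_lt_two_pow hx (Nat.pow_lt_pow_right (by norm_num) hi)

lemma fl_lt_self {i x : ℕ} (h : x.testBit i = true) : fl i x < x := by
  apply Nat.lt_of_testBit i
  · simp [h]
  · exact h
  · intro j hj; exact testBit_fl_ne x (by omega)

/-- ordered edges of direction `i` inside `A` -/
def mm (i : ℕ) (A : Finset ℕ) : ℕ := (A.filter (fun x => fl i x ∈ A)).card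

/-- ordered edges with direction in `K` inside `A` -/
def EE (K : Finset ℕ) (A : Finset ℕ) : ℕ := ∑ i ∈ K, mm i A

/-- points of `A` whose bit `i` is `b` -/
def cnt (i : ℕ) (b : Bool) (A : Finset ℕ) : ℕ := (A.filter (fun x => x.testBit i = b)).card

lemma cnt_add (i : ℕ) (b : Bool) (A : Finset ℕ) : cnt i b A + cnt i (!b) A = A.card := by
  unfold cnt
  rw [← card_filter_add_card_filter_not (s := A) (fun x => x.testBit i = b)]
  congr 2
  apply filter_congr; intro x _
  cases b <;> simp

lemma mm_eq (i : ℕ) (b : Bool) (A : Finset ℕ) :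
    mm i A = 2 * (A.filter (fun x => x.testBit i = b ∧ fl i x ∈ A)).card := by
  unfold mm
  rw [← card_filter_add_card_filter_not (s := A.filter (fun x => fl i x ∈ A))
    (fun x => x.testBit i = b), filter_filter, filter_filter, two_mul]
  congr 1
  · congr 1; apply filter_congr; intro x _; tauto
  · apply card_nbij' (fl i) (fl i)
    · intro x hx
      simp only [coe_filter, Set.mem_ofPred_eq] at hx ⊢
      refine ⟨hx.2.1, ?_, by simpa using hx.1⟩
      have := hx.2.2
      cases b <;> simp_all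
    · intro x hx
      simp only [coe_filter, Set.mem_ofPred_eq] at hx ⊢
      refine ⟨hx.2.2, by simpa using hx.1, ?_⟩
      have := hx.2.1
      cases b <;> simp_all
    · intro x _; simp
    · intro x _; simp

lemma mm_le (i : ℕ) (b : Bool) (A : Finset ℕ) : mm i A ≤ 2 * cnt i b A := by
  rw [mm_eq i b, cnt]
  apply Nat.mul_le_mul_left
  apply card_le_card
  intro x hx
  simp only [mem_filter] at hx ⊢
  exact ⟨hx.1, hx.2.1⟩

lemma mm_le_card (i : ℕ) (A : Finset ℕ) : mm i A ≤ A.card := card_filter_le _ _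

/-- splitting along a predicate invariant under the flip -/
lemma mm_split (i : ℕ) (A : Finset ℕ) (p : ℕ → Prop) [DecidablePred p]
    (hp : ∀ x, p (fl i x) ↔ p x) :
    mm i A = mm i (A.filter p) + mm i (A.filter (fun x => ¬ p x)) := by
  unfold mm
  rw [← card_filter_add_card_filter_not (s := A.filter (fun x => fl i x ∈ A)) p]
  congr 2
  · ext x; simp only [mem_filter, hp]; tauto
  · ext x; simp only [mem_filter, hp]; tauto

/-- the edge-isoperimetric inequality -/
lemma iso (K : Finset ℕ) : ∀ A : Finset ℕ, EE K A ≤ 2 * phi A.card := by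
  induction K using Finset.induction_on with
  | empty => intro A; simp [EE]
  | insert i K hi ih =>
    intro A
    have h1 : EE K A = EE K (A.filter (fun x => x.testBit i = true)) +
        EE K (A.filter (fun x => ¬ x.testBit i = true)) := by
      unfold EE
      rw [← sum_add_distrib]
      apply sum_congr rfl
      intro j hj
      apply mm_split
      intro x
      rw [testBit_fl_ne x (by rintro rfl; exact hi hj)]
    have h2 := ih (A.filter (fun x => x.testBit i = true))
    have h3 := ih (A.filter (fun x => ¬ x.testBit i = true))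
    have h4 := mm_le i true A
    have h5 := mm_le i false A
    have h6 := cnt_add i true A
    have h7 := phi_add (cnt i true A) (cnt i false A)
    have e1 : (A.filter (fun x => x.testBit i = true)).card = cnt i true A := rfl
    have e2 : (A.filter (fun x => ¬ x.testBit i = true)).card = cnt i false A := by
      unfold cnt; congr 1; apply filter_congr; intro x _; simp
    have h8 : EE (insert i K) A = mm i A + EE K A := by unfold EE; rw [sum_insert hi]
    rw [e1] at h2; rw [e2] at h3
    simp only [Bool.not_true] at h6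
    rw [h6] at h7
    omega

/-- agreement with the pattern `a` on the directions `S` -/
def Agr (S : Finset ℕ) (a : ℕ → Bool) (x : ℕ) : Prop := ∀ i ∈ S, x.testBit i = a i

instance (S : Finset ℕ) (a : ℕ → Bool) : DecidablePred (Agr S a) := fun x => by
  unfold Agr; infer_instance

lemma EE_sub (K S : Finset ℕ) (a : ℕ → Bool) (A : Finset ℕ) :
    EE K A ≤ EE K (A.filter (Agr S a)) + EE K (A.filter (fun x => ¬ Agr S a x)) +
      2 * (A.filter (fun x => ¬ Agr S a x)).card := by
  set A1 := A.filter (Agr S a) with hA1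
  set A2 := A.filter (fun x => ¬ Agr S a x) with hA2
  have h1 : ∀ i, mm i A ≤ mm i A1 + mm i A2 + 2 * (A2.filter (fun x => fl i x ∈ A1)).card := by
    intro i
    have e : (A1.filter (fun x => fl i x ∈ A2)).card = (A2.filter (fun x => fl i x ∈ A1)).card := by
      apply card_nbij' (fl i) (fl i)
      · intro x hx
        simp only [coe_filter, Set.mem_ofPred_eq] at hx ⊢
        exact ⟨hx.2, by simpa using hx.1⟩
      · intro x hx
        simp only [coe_filter, Set.mem_ofPred_eq] at hx ⊢
        exact ⟨hx.2, by simpa using hx.1⟩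
      · intro x _; simp
      · intro x _; simp
    have hs : A.filter (fun x => fl i x ∈ A) ⊆ A1.filter (fun x => fl i x ∈ A1) ∪
        A2.filter (fun x => fl i x ∈ A2) ∪ A1.filter (fun x => fl i x ∈ A2) ∪
        A2.filter (fun x => fl i x ∈ A1) := by
      intro x hx
      simp only [hA1, hA2, mem_filter, mem_union] at hx ⊢
      tauto
    have h2 := card_le_card hs
    have h3 := card_union_le (A1.filter (fun x => fl i x ∈ A1) ∪
        A2.filter (fun x => fl i x ∈ A2) ∪ A1.filter (fun x => fl i x ∈ A2))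
        (A2.filter (fun x => fl i x ∈ A1))
    have h4 := card_union_le (A1.filter (fun x => fl i x ∈ A1) ∪
        A2.filter (fun x => fl i x ∈ A2)) (A1.filter (fun x => fl i x ∈ A2))
    have h5 := card_union_le (A1.filter (fun x => fl i x ∈ A1))
        (A2.filter (fun x => fl i x ∈ A2))
    unfold mm
    omega
  have h2 : ∑ i ∈ K, (A2.filter (fun x => fl i x ∈ A1)).card ≤ A2.card := by
    have e0 := sum_card_bipartiteAbove_eq_sum_card_bipartiteBelow (s := K) (t := A2)
      (r := fun i x => fl i x ∈ A1)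
    simp only [bipartiteAbove] at e0
    rw [e0, card_eq_sum_ones A2]
    apply sum_le_sum
    intro x hx
    rw [card_le_one]
    intro i hi j hj
    simp only [bipartiteBelow, mem_filter, hA1, hA2] at hi hj hx
    obtain ⟨_, hx⟩ := hx
    unfold Agr at hx
    push Not at hx
    obtain ⟨k, hk, hx⟩ := hx
    have e1 : i = k := by
      by_contra h
      exact hx (by rw [← hi.2.2 k hk, testBit_fl_ne x h])
    have e2 : j = k := by
      by_contra h
      exact hx (by rw [← hj.2.2 k hk, testBit_fl_ne x h])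
    rw [e1, e2]
  unfold EE
  calc ∑ i ∈ K, mm i A
      ≤ ∑ i ∈ K, (mm i A1 + mm i A2 + 2 * (A2.filter (fun x => fl i x ∈ A1)).card) :=
        sum_le_sum (fun i _ => h1 i)
    _ = ∑ i ∈ K, mm i A1 + ∑ i ∈ K, mm i A2 +
        2 * ∑ i ∈ K, (A2.filter (fun x => fl i x ∈ A1)).card := by
        rw [sum_add_distrib, sum_add_distrib, mul_sum]
    _ ≤ _ := by omega

/-- number of points of `A` outside the subcube given by `S`, `a` -/
def outside (S : Finset ℕ) (a : ℕ → Bool) (A : Finset ℕ) : ℕ :=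
  (A.filter (fun x => ¬ Agr S a x)).card

lemma deficit_ge (K S : Finset ℕ) (a : ℕ → Bool) (A : Finset ℕ) (s : ℕ)
    (hA : A.card = 2 ^ (s + 1)) :
    (EE K A : ℤ) + 2 * tau s (outside S a A) ≤ (s + 1) * 2 ^ (s + 1) := by
  have h1 := EE_sub K S a A
  have h2 := iso K (A.filter (Agr S a))
  have h3 := iso K (A.filter (fun x => ¬ Agr S a x))
  have h4 := card_filter_add_card_filter_not (s := A) (Agr S a)
  have h5 := split_bound s (outside S a A) (A.filter (Agr S a)).card
    (by unfold outside; omega)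
  unfold outside at *
  have h6 : EE K A ≤ 2 * phi (A.filter (Agr S a)).card +
      2 * phi (A.filter (fun x => ¬ Agr S a x)).card +
      2 * (A.filter (fun x => ¬ Agr S a x)).card := by omega
  have h7 : ((EE K A : ℕ) : ℤ) ≤ ((2 * phi (A.filter (Agr S a)).card +
      2 * phi (A.filter (fun x => ¬ Agr S a x)).card +
      2 * (A.filter (fun x => ¬ Agr S a x)).card : ℕ) : ℤ) := by exact_mod_cast h6
  push_cast at h7
  linarith

/-- `A` has `2^t` points and excess below one half -/
structure Good (n t : ℕ) (A : Finset ℕ) : Prop where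
  lt : ∀ x ∈ A, x < 2 ^ n
  card : A.card = 2 ^ t
  many : 2 * t * 2 ^ t < 2 * EE (range n) A + 2 ^ t

lemma Good.dich {n t : ℕ} {A : Finset ℕ} (h : Good n t A) (S : Finset ℕ) (a : ℕ → Bool) :
    8 * outside S a A < 2 ^ t ∨ 3 * 2 ^ t < 8 * outside S a A := by
  by_contra hc
  push Not at hc
  rcases t with _ | s
  · omega
  have h1 := deficit_ge (range n) S a A s h.card
  have h2 := tau_window s (outside S a A) (by rw [pow_succ] at hc; omega)
    (by rw [pow_succ] at hc; omega)
  have h3 : ((2 * (s + 1) * 2 ^ (s + 1) : ℕ) : ℤ) <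
      ((2 * EE (range n) A + 2 ^ (s + 1) : ℕ) : ℤ) := by exact_mod_cast h.many
  push_cast at h3
  rw [pow_succ] at h3 h1
  linarith

lemma Good.dich_cnt {n t : ℕ} {A : Finset ℕ} (h : Good n t A) (i : ℕ) (b : Bool) :
    8 * cnt i b A < 2 ^ t ∨ 3 * 2 ^ t < 8 * cnt i b A := by
  have := h.dich {i} (fun _ => !b)
  have e : outside {i} (fun _ => !b) A = cnt i b A := by
    unfold outside cnt Agr
    congr 1
    apply filter_congr
    intro x _
    cases b <;> simp
  rwa [e] at this

/-- balanced directions -/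
def bal (n t : ℕ) (A : Finset ℕ) : Finset ℕ :=
  (range n).filter (fun i => 3 * 2 ^ t < 8 * cnt i true A ∧ 3 * 2 ^ t < 8 * cnt i false A)

/-- majority pattern -/
def maj (A : Finset ℕ) (i : ℕ) : Bool := decide (cnt i false A < cnt i true A)

lemma Good.chain {n t : ℕ} {A : Finset ℕ} (h : Good n t A) (S : Finset ℕ)
    (hS : S ⊆ range n \ bal n t A) : 8 * outside S (maj A) A < 2 ^ t := by
  induction S using Finset.induction_on with
  | empty => simp [outside, Agr]
  | insert i S hi ih =>
    have h1 := ih (fun x hx => hS (mem_insert_of_mem hx))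
    have h2 := hS (mem_insert_self i S)
    have h3 : outside (insert i S) (maj A) A ≤ outside S (maj A) A + cnt i (!maj A i) A := by
      unfold outside cnt
      refine le_trans (card_le_card ?_) (card_union_le _ _)
      intro x hx
      rw [mem_filter] at hx
      rw [mem_union, mem_filter, mem_filter]
      by_cases h4 : x.testBit i = maj A i
      · left
        refine ⟨hx.1, fun h5 => hx.2 ?_⟩
        intro j hj
        rcases mem_insert.1 hj with rfl | hj
        · exact h4
        · exact h5 j hj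
      · right; refine ⟨hx.1, ?_⟩
        revert h4; cases x.testBit i <;> cases maj A i <;> simp
    have h4 : 8 * cnt i (!maj A i) A < 2 ^ t := by
      simp only [bal, mem_sdiff, mem_filter, not_and] at h2
      have h5 := h2.2 h2.1
      have h6 := h.dich_cnt i true
      have h7 := h.dich_cnt i false
      have h8 := cnt_add i true A
      rw [h.card] at h8
      simp only [Bool.not_true] at h8
      unfold maj
      by_cases h9 : cnt i false A < cnt i true A
      · simp only [h9, decide_true, Bool.not_true]; omega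
      · simp only [h9, decide_false, Bool.not_false]; omega
    have h5 := h.dich (insert i S) (maj A)
    omega

end Pool.Agent.MP_ab80ef_co

end

section

/- Subcubes, a level-one Poincare inequality, and the case of `t+1` balanced directions. -/

namespace Pool.Agent.MP_ab80ef_co

open Finset

/-- subcube of `Q_n` with free directions `B` and pattern `a` elsewhere -/
def cube (n : ℕ) (B : Finset ℕ) (a : ℕ → Bool) : Finset ℕ :=
  (range (2 ^ n)).filter (Agr (range n \ B) a)

lemma eq_of_bits {n x y : ℕ} (hx : x < 2 ^ n) (hy : y < 2 ^ n)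
    (h : ∀ i < n, x.testBit i = y.testBit i) : x = y := by
  apply Nat.eq_of_testBit_eq
  intro i
  by_cases hi : i < n
  · exact h i hi
  · have h2 : 2 ^ n ≤ 2 ^ i := Nat.pow_le_pow_right (by norm_num) (by omega)
    rw [Nat.testBit_lt_two_pow (by omega), Nat.testBit_lt_two_pow (by omega)]

lemma cube_empty (n : ℕ) (a : ℕ → Bool) : ∃ p, cube n ∅ a = {p} := by
  refine ⟨Nat.ofBits (fun i : Fin n => a i), ?_⟩
  ext x
  simp only [cube, mem_filter, mem_range, sdiff_empty, Agr, mem_singleton]
  constructor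
  · rintro ⟨h1, h2⟩
    apply eq_of_bits h1 (Nat.ofBits_lt_two_pow _)
    intro i hi
    rw [h2 i hi, Nat.testBit_ofBits_lt _ _ hi]
  · rintro rfl
    refine ⟨Nat.ofBits_lt_two_pow _, fun i hi => ?_⟩
    rw [Nat.testBit_ofBits_lt _ _ hi]

lemma sum_cube_insert {M : Type*} [AddCommMonoid M] {n i : ℕ} {B : Finset ℕ} (a : ℕ → Bool)
    (hi : i < n) (hB : i ∉ B) (F : ℕ → M) :
    ∑ x ∈ cube n (insert i B) a, F x = ∑ x ∈ cube n B a, (F x + F (fl i x)) := by
  have e : cube n (insert i B) a = cube n B a ∪ (cube n B a).image (fl i) := by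
    ext x
    simp only [cube, mem_filter, mem_range, mem_union, mem_image, Agr, mem_sdiff, mem_insert,
      not_or]
    constructor
    · rintro ⟨h1, h2⟩
      by_cases h : x.testBit i = a i
      · left
        refine ⟨h1, fun j hj => ?_⟩
        by_cases hji : j = i
        · rw [hji]; exact h
        · exact h2 j ⟨hj.1, hji, hj.2⟩
      · right
        refine ⟨fl i x, ⟨fl_lt hi h1, fun j hj => ?_⟩, by simp⟩
        by_cases hji : j = i
        · rw [hji, testBit_fl_self]
          revert h; cases x.testBit i <;> cases a i <;> simp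
        · rw [testBit_fl_ne x (Ne.symm hji)]
          exact h2 j ⟨hj.1, hji, hj.2⟩
    · rintro (⟨h1, h2⟩ | ⟨y, ⟨h1, h2⟩, rfl⟩)
      · exact ⟨h1, fun j hj => h2 j ⟨hj.1, hj.2.2⟩⟩
      · refine ⟨fl_lt hi h1, fun j hj => ?_⟩
        rw [testBit_fl_ne y (Ne.symm hj.2.1)]
        exact h2 j ⟨hj.1, hj.2.2⟩
  have d : Disjoint (cube n B a) ((cube n B a).image (fl i)) := by
    rw [disjoint_left]
    intro x hx hx2
    obtain ⟨y, hy, rfl⟩ := mem_image.1 hx2
    simp only [cube, mem_filter, mem_range, Agr, mem_sdiff] at hx hy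
    have h1 := hx.2 i ⟨hi, hB⟩
    have h2 := hy.2 i ⟨hi, hB⟩
    rw [testBit_fl_self, h2] at h1
    simp at h1
  rw [e, sum_union d, sum_image (fun x _ y _ h => fl_inj i h), sum_add_distrib]

lemma card_cube (n : ℕ) (a : ℕ → Bool) (B : Finset ℕ) (hB : B ⊆ range n) :
    (cube n B a).card = 2 ^ B.card := by
  induction B using Finset.induction_on with
  | empty => obtain ⟨p, hp⟩ := cube_empty n a; simp [hp]
  | insert i B hi ih =>
    have h1 := ih (fun x hx => hB (mem_insert_of_mem hx))
    have h2 : i < n := mem_range.1 (hB (mem_insert_self i B))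
    rw [card_eq_sum_ones, sum_cube_insert a h2 hi, card_insert_of_notMem hi, pow_succ]
    simp [h1]

/-- Dirichlet sum in the directions `B` -/
noncomputable def dir (n : ℕ) (B : Finset ℕ) (a : ℕ → Bool) (f : ℕ → ℝ) : ℝ :=
  ∑ j ∈ B, ∑ x ∈ cube n B a, (f x - f (fl j x)) ^ 2

/-- sign of bit `j` -/
def sg (j x : ℕ) : ℝ := if x.testBit j then 1 else -1

lemma dir_insert {n i : ℕ} {B : Finset ℕ} (a : ℕ → Bool) (hi : i < n) (hB : i ∉ B) (f : ℕ → ℝ) :
    dir n (insert i B) a f = 2 * ∑ x ∈ cube n B a, (f x - f (fl i x)) ^ 2 +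
      (dir n B a (fun x => f x + f (fl i x)) + dir n B a (fun x => f x - f (fl i x))) / 2 := by
  unfold dir
  rw [sum_insert hB, sum_cube_insert a hi hB, ← sum_add_distrib, sum_div, mul_sum]
  congr 1
  · apply sum_congr rfl; intro x _; rw [fl_fl]; ring
  · apply sum_congr rfl; intro j _
    rw [sum_cube_insert a hi hB, ← sum_add_distrib, sum_div]
    apply sum_congr rfl; intro x _
    rw [fl_comm j i x]; ring

lemma sq_insert {n i : ℕ} {B : Finset ℕ} (a : ℕ → Bool) (hi : i < n) (hB : i ∉ B) (f : ℕ → ℝ) :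
    ∑ x ∈ cube n (insert i B) a, f x ^ 2 = (∑ x ∈ cube n B a, (f x + f (fl i x)) ^ 2 +
      ∑ x ∈ cube n B a, (f x - f (fl i x)) ^ 2) / 2 := by
  rw [sum_cube_insert a hi hB, ← sum_add_distrib, sum_div]
  apply sum_congr rfl; intro x _; ring

lemma dir_nonneg (n : ℕ) (B : Finset ℕ) (a : ℕ → Bool) (f : ℕ → ℝ) : 0 ≤ dir n B a f :=
  sum_nonneg (fun _ _ => sum_nonneg (fun _ _ => sq_nonneg _))

lemma poincare (n : ℕ) (a : ℕ → Bool) (B : Finset ℕ) (hB : B ⊆ range n) : ∀ f : ℕ → ℝ,
    2 ^ B.card * ∑ x ∈ cube n B a, f x ^ 2 - (∑ x ∈ cube n B a, f x) ^ 2 ≤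
      2 ^ B.card / 4 * dir n B a f := by
  induction B using Finset.induction_on with
  | empty => intro f; obtain ⟨p, hp⟩ := cube_empty n a; simp [hp, dir]
  | insert i B hi ih =>
    intro f
    have h2 : i < n := mem_range.1 (hB (mem_insert_self i B))
    have h1 := ih (fun x hx => hB (mem_insert_of_mem hx)) (fun x => f x + f (fl i x))
    have h3 := dir_nonneg n B a (fun x => f x - f (fl i x))
    rw [dir_insert a h2 hi, sq_insert a h2 hi, sum_cube_insert a h2 hi,
      card_insert_of_notMem hi, pow_succ]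
    have h4 : (0 : ℝ) < 2 ^ B.card := by positivity
    have h5 := mul_nonneg h4.le h3
    nlinarith

lemma level_one (n : ℕ) (a : ℕ → Bool) (B : Finset ℕ) (hB : B ⊆ range n) : ∀ f : ℕ → ℝ,
    2 * (2 ^ B.card * ∑ x ∈ cube n B a, f x ^ 2 - (∑ x ∈ cube n B a, f x) ^ 2) -
      ∑ j ∈ B, (∑ x ∈ cube n B a, f x * sg j x) ^ 2 ≤ 2 ^ B.card / 4 * dir n B a f := by
  induction B using Finset.induction_on with
  | empty => intro f; obtain ⟨p, hp⟩ := cube_empty n a; simp [hp, dir]
  | insert i B hi ih =>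
    intro f
    have h2 : i < n := mem_range.1 (hB (mem_insert_self i B))
    have hB' : B ⊆ range n := fun x hx => hB (mem_insert_of_mem hx)
    have h1 := ih hB' (fun x => f x + f (fl i x))
    have h3 := poincare n a B hB' (fun x => f x - f (fl i x))
    have e1 : ∑ j ∈ B, (∑ x ∈ cube n (insert i B) a, f x * sg j x) ^ 2 =
        ∑ j ∈ B, (∑ x ∈ cube n B a, (f x + f (fl i x)) * sg j x) ^ 2 := by
      apply sum_congr rfl; intro j hj
      rw [sum_cube_insert a h2 hi]
      congr 1
      apply sum_congr rfl; intro x _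
      have : sg j (fl i x) = sg j x := by
        unfold sg; rw [testBit_fl_ne x (by rintro rfl; exact hi hj)]
      rw [this]; ring
    have e2 : (∑ x ∈ cube n (insert i B) a, f x * sg i x) ^ 2 =
        (∑ x ∈ cube n B a, (f x - f (fl i x))) ^ 2 := by
      rw [sum_cube_insert a h2 hi]
      have : ∑ x ∈ cube n B a, (f x * sg i x + f (fl i x) * sg i (fl i x)) =
          (if a i then 1 else -1) * ∑ x ∈ cube n B a, (f x - f (fl i x)) := by
        rw [mul_sum]
        apply sum_congr rfl; intro x hx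
        simp only [cube, mem_filter, mem_range, Agr, mem_sdiff] at hx
        have h5 := hx.2 i ⟨h2, hi⟩
        unfold sg
        rw [testBit_fl_self, h5]
        cases a i <;> simp <;> ring
      rw [this, mul_pow]
      cases a i <;> norm_num
    rw [dir_insert a h2 hi, sq_insert a h2 hi, sum_cube_insert a h2 hi, sum_insert hi, e1, e2,
      card_insert_of_notMem hi, pow_succ]
    nlinarith

lemma level_one_set (n : ℕ) (a : ℕ → Bool) (B : Finset ℕ) (hB : B ⊆ range n) (D : Finset ℕ)
    (hD : D ⊆ cube n B a) :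
    2 * (2 ^ B.card * (D.card : ℝ) - (D.card : ℝ) ^ 2) -
      ∑ j ∈ B, ((cnt j true D : ℝ) - cnt j false D) ^ 2 ≤
      2 ^ B.card / 2 * ∑ j ∈ B, ((D.card : ℝ) - mm j D) := by
  have h := level_one n a B hB (fun x => if x ∈ D then 1 else 0)
  have s0 : ∀ G : ℕ → ℝ, ∑ x ∈ cube n B a, (if x ∈ D then 1 else 0) * G x = ∑ x ∈ D, G x := by
    intro G
    rw [← sum_subset hD (by intro x _ hx; simp [hx])]
    apply sum_congr rfl; intro x hx; simp [hx]
  have e1 : ∑ x ∈ cube n B a, (if x ∈ D then (1 : ℝ) else 0) = D.card := by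
    have := s0 (fun _ => 1); simpa using this
  have e2 : ∑ x ∈ cube n B a, (if x ∈ D then (1 : ℝ) else 0) ^ 2 = D.card := by
    rw [← e1]; apply sum_congr rfl; intro x _; split_ifs <;> simp
  have e3 : ∀ j, ∑ x ∈ cube n B a, (if x ∈ D then (1 : ℝ) else 0) * sg j x =
      (cnt j true D : ℝ) - cnt j false D := by
    intro j
    rw [s0]
    unfold cnt sg
    rw [card_filter, card_filter]
    push_cast
    rw [← sum_sub_distrib]
    apply sum_congr rfl; intro x _
    cases x.testBit j <;> simp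
  have e4 : ∀ j ∈ B, ∑ x ∈ cube n B a, ((if x ∈ D then (1 : ℝ) else 0) -
      (if fl j x ∈ D then (1 : ℝ) else 0)) ^ 2 = 2 * ((D.card : ℝ) - mm j D) := by
    intro j hj
    have hjn : j < n := mem_range.1 (hB hj)
    have hfl : ∀ x ∈ cube n B a, fl j x ∈ cube n B a := by
      intro x hx
      simp only [cube, mem_filter, mem_range, Agr, mem_sdiff] at hx ⊢
      refine ⟨fl_lt hjn hx.1, fun k hk => ?_⟩
      rw [testBit_fl_ne x (by rintro rfl; exact hk.2 hj)]
      exact hx.2 k hk
    have e5 : ∑ x ∈ cube n B a, (if fl j x ∈ D then (1 : ℝ) else 0) = D.card := by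
      rw [← e1]
      apply sum_nbij' (fl j) (fl j) hfl hfl <;> simp
    have e6 : ∑ x ∈ cube n B a, (if x ∈ D then (1 : ℝ) else 0) *
        (if fl j x ∈ D then (1 : ℝ) else 0) = mm j D := by
      rw [s0]; unfold mm; rw [card_filter]; push_cast; rfl
    calc _ = ∑ x ∈ cube n B a, ((if x ∈ D then (1 : ℝ) else 0) +
          (if fl j x ∈ D then (1 : ℝ) else 0) - 2 * ((if x ∈ D then (1 : ℝ) else 0) *
          (if fl j x ∈ D then (1 : ℝ) else 0))) := by
          apply sum_congr rfl; intro x _; split_ifs <;> norm_num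
      _ = _ := by rw [sum_sub_distrib, sum_add_distrib, ← mul_sum, e1, e5, e6]; ring
  unfold dir at h
  simp only [e1, e2, e3] at h
  rw [sum_congr rfl e4, ← mul_sum] at h
  linarith

lemma Good.inside_sub {n t : ℕ} {A : Finset ℕ} (h : Good n t A) (B : Finset ℕ) (a : ℕ → Bool) :
    A.filter (Agr (range n \ B) a) ⊆ cube n B a := by
  intro x hx
  simp only [cube, mem_filter, mem_range] at hx ⊢
  exact ⟨h.lt x hx.1, hx.2⟩

lemma Good.le_card_bal {n t : ℕ} {A : Finset ℕ} (h : Good n t A) : t ≤ (bal n t A).card := by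
  have h1 := h.chain _ (Subset.refl _)
  have h2 := card_le_card (h.inside_sub (bal n t A) (maj A))
  rw [card_cube n (maj A) (bal n t A) (filter_subset _ _)] at h2
  have h3 := card_filter_add_card_filter_not (s := A) (Agr (range n \ bal n t A) (maj A))
  unfold outside at h1
  rw [h.card] at h3
  by_contra hc
  have h4 : 2 ^ ((bal n t A).card + 1) ≤ 2 ^ t := Nat.pow_le_pow_right (by norm_num) (by omega)
  rw [pow_succ] at h4
  omega

lemma phi_small (t x : ℕ) (h : 8 * x < 2 ^ t) : 2 * phi x + 3 * x ≤ t * x := by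
  rcases Nat.eq_zero_or_pos x with rfl | hx
  · simp [phi_zero]
  have ht : 3 ≤ t := by
    by_contra hc
    have : 2 ^ t ≤ 2 ^ 3 := Nat.pow_le_pow_right (by norm_num) (by omega)
    omega
  obtain ⟨s, rfl⟩ : ∃ s, t = s + 3 := ⟨t - 3, by omega⟩
  have h1 := tau_nonneg s x (by rw [pow_add] at h; omega)
  unfold tau at h1
  have h2 : 2 * phi x ≤ s * x := by exact_mod_cast (by linarith : (2 * phi x : ℤ) ≤ s * x)
  nlinarith

lemma Good.card_bal_ne {n t : ℕ} {A : Finset ℕ} (h : Good n t A) :
    (bal n t A).card ≠ t + 1 := by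
  intro hc
  set B := bal n t A with hB
  have hBn : B ⊆ range n := filter_subset _ _
  set D := A.filter (Agr (range n \ B) (maj A)) with hD
  set x := outside (range n \ B) (maj A) A with hx
  have h1 : 8 * x < 2 ^ t := h.chain _ (Subset.refl _)
  have h2 := level_one_set n (maj A) B hBn D (h.inside_sub B (maj A))
  have h3 : D.card + x = 2 ^ t := by
    rw [← h.card]; exact card_filter_add_card_filter_not (s := A) _
  have h4 := EE_sub (range n) (range n \ B) (maj A) A
  have h5 := iso (range n) (A.filter (fun x => ¬ Agr (range n \ B) (maj A) x))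
  have h6 := phi_small t x h1
  have h7 : EE (range n) D = ∑ j ∈ B, mm j D := by
    unfold EE
    symm
    apply sum_subset hBn
    intro j hj hjB
    unfold mm
    rw [card_eq_zero, filter_eq_empty_iff]
    intro y hy hy2
    simp only [hD, mem_filter, Agr] at hy hy2
    have e1 := hy.2 j (mem_sdiff.2 ⟨hj, hjB⟩)
    have e2 := hy2.2 j (mem_sdiff.2 ⟨hj, hjB⟩)
    rw [testBit_fl_self, e1] at e2
    simp at e2
  have h8 : ∀ j ∈ B, ((cnt j true D : ℝ) - cnt j false D) ^ 2 ≤
      ((2 : ℝ) ^ t / 4 + x) * ((D.card : ℝ) - mm j D) := by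
    intro j hj
    have a1 := mm_le j true D
    have a2 := mm_le j false D
    have a3 := cnt_add j true D
    have a4 := cnt_add j true A
    simp only [Bool.not_true] at a3 a4
    have a5 : cnt j true D ≤ cnt j true A :=
      card_le_card (filter_subset_filter _ (filter_subset _ _))
    have a6 : cnt j false D ≤ cnt j false A :=
      card_le_card (filter_subset_filter _ (filter_subset _ _))
    have a7 := (mem_filter.1 hj).2
    rw [h.card] at a4
    have b1 : (mm j D : ℝ) ≤ 2 * cnt j true D := by exact_mod_cast a1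
    have b2 : (mm j D : ℝ) ≤ 2 * cnt j false D := by exact_mod_cast a2
    have b3 : (cnt j true D : ℝ) + cnt j false D = D.card := by exact_mod_cast a3
    have b4 : 4 * (cnt j true D : ℝ) ≤ 4 * cnt j false D + 2 ^ t + 4 * x := by
      have : 4 * cnt j true D ≤ 4 * cnt j false D + 2 ^ t + 4 * x := by omega
      exact_mod_cast this
    have b5 : 4 * (cnt j false D : ℝ) ≤ 4 * cnt j true D + 2 ^ t + 4 * x := by
      have : 4 * cnt j false D ≤ 4 * cnt j true D + 2 ^ t + 4 * x := by omega
      exact_mod_cast this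
    rcases le_total (cnt j true D : ℝ) (cnt j false D) with hh | hh
    · have := mul_le_mul (a := (cnt j false D : ℝ) - cnt j true D)
        (b := (2 : ℝ) ^ t / 4 + x) (c := (cnt j false D : ℝ) - cnt j true D)
        (d := (D.card : ℝ) - mm j D) (by linarith) (by linarith) (by linarith) (by positivity)
      nlinarith
    · have := mul_le_mul (a := (cnt j true D : ℝ) - cnt j false D)
        (b := (2 : ℝ) ^ t / 4 + x) (c := (cnt j true D : ℝ) - cnt j false D)
        (d := (D.card : ℝ) - mm j D) (by linarith) (by linarith) (by linarith) (by positivity)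
      nlinarith
  have h9 := sum_le_sum h8
  rw [← mul_sum] at h9
  set d : ℝ := ∑ j ∈ B, ((D.card : ℝ) - mm j D) with hd
  have h10 : d = (t + 1) * D.card - EE (range n) D := by
    rw [hd, sum_sub_distrib, h7, sum_const, hc]; simp
  have h11 : 2 * t * 2 ^ t + 2 * x < 2 * EE (range n) D + 2 * t * x + 2 ^ t := by
    have := h.many
    have e : (A.filter (fun x => ¬ Agr (range n \ B) (maj A) x)).card = x := rfl
    rw [e] at h4 h5
    nlinarith
  have h12 : (2 * t * 2 ^ t + 2 * x : ℝ) < 2 * EE (range n) D + 2 * t * x + 2 ^ t := by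
    exact_mod_cast h11
  have h13 : (D.card : ℝ) + x = 2 ^ t := by exact_mod_cast h3
  have h14 : (8 * x : ℝ) < 2 ^ t := by exact_mod_cast h1
  rw [hc, pow_succ] at h2
  have hx0 : (0 : ℝ) ≤ x := by positivity
  set M : ℝ := 2 ^ t with hM
  have h15 : (D.card : ℝ) = M - x := by linarith
  have h16 : d < 3 * M / 2 - 2 * x := by rw [h10, h15]; nlinarith
  rw [h15] at h2
  have h17 : (5 * M / 4 + x) * d ≤ (5 * M / 4 + x) * (3 * M / 2 - 2 * x) :=
    mul_le_mul_of_nonneg_left h16.le (by linarith)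
  nlinarith

end Pool.Agent.MP_ab80ef_co

end

section

/- Compression of the fibres over the lowest `k` directions to initial segments. -/

namespace Pool.Agent.MP_ab80ef_co

open Finset

/-- fibre size -/
def wt (k : ℕ) (A : Finset ℕ) (h : ℕ) : ℕ := (A.filter (fun x => x / 2 ^ k = h)).card

/-- compression -/
def comp (n k : ℕ) (A : Finset ℕ) : Finset ℕ :=
  (range (2 ^ n)).filter (fun x => x % 2 ^ k < wt k A (x / 2 ^ k))

lemma wt_le (k : ℕ) (A : Finset ℕ) (h : ℕ) : wt k A h ≤ 2 ^ k := by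
  unfold wt
  refine le_trans ?_ (card_range (2 ^ k)).le
  apply card_le_card_of_injOn (fun x => x % 2 ^ k)
  · intro x _
    simp only [coe_range, Set.mem_Iio]
    exact Nat.mod_lt _ (by positivity)
  · intro x hx y hy hxy
    simp only [coe_filter, Set.mem_ofPred_eq] at hx hy hxy
    rw [← Nat.div_add_mod x (2 ^ k), ← Nat.div_add_mod y (2 ^ k), hx.2, hy.2, hxy]

lemma mem_comp {n k : ℕ} {A : Finset ℕ} (hA : ∀ x ∈ A, x < 2 ^ n) (hk : k ≤ n) (x : ℕ) :
    x ∈ comp n k A ↔ x % 2 ^ k < wt k A (x / 2 ^ k) := by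
  simp only [comp, mem_filter, mem_range, and_iff_right_iff_imp]
  intro h
  have h1 : 0 < wt k A (x / 2 ^ k) := by omega
  obtain ⟨y, hy⟩ := card_pos.1 h1
  simp only [mem_filter] at hy
  obtain ⟨m, rfl⟩ : ∃ m, n = m + k := ⟨n - k, by omega⟩
  have h2 := hA y hy.1
  rw [pow_add, ← Nat.div_lt_iff_lt_mul (by positivity)] at h2 ⊢
  rwa [← hy.2]

lemma sum_fib {n k : ℕ} {D : Finset ℕ} (hD : ∀ x ∈ D, x < 2 ^ n) (G : ℕ → ℕ) :
    ∑ x ∈ D, G x = ∑ h ∈ range (2 ^ n), ∑ x ∈ D.filter (fun x => x / 2 ^ k = h), G x := by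
  rw [sum_fiberwise_of_maps_to]
  intro x hx
  exact mem_range.2 (lt_of_le_of_lt (Nat.div_le_self _ _) (hD x hx))

lemma comp_lt {n k : ℕ} {A : Finset ℕ} : ∀ x ∈ comp n k A, x < 2 ^ n := by
  intro x hx; exact mem_range.1 (mem_filter.1 hx).1

lemma sum_comp {n k : ℕ} {A : Finset ℕ} (hA : ∀ x ∈ A, x < 2 ^ n) (hk : k ≤ n)
    (F : ℕ → ℕ → ℕ) :
    ∑ x ∈ comp n k A, F (x % 2 ^ k) (x / 2 ^ k) =
      ∑ h ∈ range (2 ^ n), ∑ l ∈ range (wt k A h), F l h := by
  rw [sum_fib (k := k) comp_lt]
  apply sum_congr rfl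
  intro h _
  have hp : 0 < 2 ^ k := by positivity
  apply sum_nbij' (fun x => x % 2 ^ k) (fun l => l + 2 ^ k * h)
  · intro x hx
    simp only [mem_filter, mem_comp hA hk] at hx
    rw [mem_range, ← hx.2]; exact hx.1
  · intro l hl
    have h1 : l < 2 ^ k := lt_of_lt_of_le (mem_range.1 hl) (wt_le k A h)
    simp only [mem_filter, mem_comp hA hk]
    rw [Nat.add_mul_mod_self_left, Nat.add_mul_div_left _ _ hp, Nat.mod_eq_of_lt h1,
      Nat.div_eq_of_lt h1, zero_add]
    exact ⟨mem_range.1 hl, rfl⟩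
  · intro x hx
    simp only [mem_filter] at hx
    rw [← hx.2]; exact Nat.mod_add_div x _
  · intro l hl
    have h1 : l < 2 ^ k := lt_of_lt_of_le (mem_range.1 hl) (wt_le k A h)
    rw [Nat.add_mul_mod_self_left, Nat.mod_eq_of_lt h1]
  · intro x hx
    simp only [mem_filter] at hx
    rw [hx.2]

lemma sum_hi {n k : ℕ} {A : Finset ℕ} (hA : ∀ x ∈ A, x < 2 ^ n) (F : ℕ → ℕ) :
    ∑ x ∈ A, F (x / 2 ^ k) = ∑ h ∈ range (2 ^ n), wt k A h * F h := by
  rw [sum_fib (k := k) hA]
  apply sum_congr rfl
  intro h _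
  rw [sum_congr rfl (g := fun _ => F h) (by intro x hx; rw [(mem_filter.1 hx).2])]
  simp [wt]

lemma sum_comp_hi {n k : ℕ} {A : Finset ℕ} (hA : ∀ x ∈ A, x < 2 ^ n) (hk : k ≤ n) (F : ℕ → ℕ) :
    ∑ x ∈ comp n k A, F (x / 2 ^ k) = ∑ x ∈ A, F (x / 2 ^ k) := by
  rw [sum_comp hA hk (fun _ h => F h), sum_hi hA]
  simp

lemma card_comp {n k : ℕ} {A : Finset ℕ} (hA : ∀ x ∈ A, x < 2 ^ n) (hk : k ≤ n) :
    (comp n k A).card = A.card := by
  have := sum_comp_hi hA hk (fun _ => 1)
  simpa using this

lemma cnt_comp {n k j : ℕ} {A : Finset ℕ} (hA : ∀ x ∈ A, x < 2 ^ n) (hk : k ≤ n) (hj : k ≤ j)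
    (b : Bool) : cnt j b (comp n k A) = cnt j b A := by
  have := sum_comp_hi hA hk (fun h => if h.testBit (j - k) = b then 1 else 0)
  simp only [Nat.testBit_div_two_pow, Nat.sub_add_cancel hj] at this
  unfold cnt
  rw [card_filter, card_filter, this]

lemma fl_div_lo {j k : ℕ} (hj : j < k) (x : ℕ) : fl j x / 2 ^ k = x / 2 ^ k := by
  apply Nat.eq_of_testBit_eq; intro i
  rw [Nat.testBit_div_two_pow, Nat.testBit_div_two_pow, testBit_fl_ne x (by omega)]

lemma fl_mod_lo {j k : ℕ} (hj : j < k) (x : ℕ) : fl j x % 2 ^ k = fl j (x % 2 ^ k) := by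
  apply Nat.eq_of_testBit_eq; intro i
  rw [Nat.testBit_mod_two_pow, testBit_fl, testBit_fl, Nat.testBit_mod_two_pow]
  by_cases h : i < k
  · simp [h]
  · have : j ≠ i := by omega
    simp [h, this]

lemma fl_div_hi {j k : ℕ} (hj : k ≤ j) (x : ℕ) : fl j x / 2 ^ k = fl (j - k) (x / 2 ^ k) := by
  apply Nat.eq_of_testBit_eq; intro i
  rw [Nat.testBit_div_two_pow, testBit_fl, testBit_fl, Nat.testBit_div_two_pow]
  congr 1
  apply decide_eq_decide.2; omega

lemma fl_mod_hi {j k : ℕ} (hj : k ≤ j) (x : ℕ) : fl j x % 2 ^ k = x % 2 ^ k := by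
  apply Nat.eq_of_testBit_eq; intro i
  rw [Nat.testBit_mod_two_pow, Nat.testBit_mod_two_pow]
  by_cases h : i < k
  · rw [testBit_fl_ne x (by omega)]
  · simp [h]

lemma comp_down {n k j : ℕ} {A : Finset ℕ} (hA : ∀ x ∈ A, x < 2 ^ n) (hk : k ≤ n) (hj : j < k)
    (x : ℕ) (hx : x ∈ comp n k A) (hb : x.testBit j = true) : fl j x ∈ comp n k A := by
  rw [mem_comp hA hk] at hx ⊢
  rw [fl_div_lo hj, fl_mod_lo hj]
  refine lt_trans (fl_lt_self ?_) hx
  rw [Nat.testBit_mod_two_pow]; simp [hj, hb]

lemma mm_down {j : ℕ} {D : Finset ℕ} (h : ∀ x ∈ D, x.testBit j = true → fl j x ∈ D) :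
    mm j D = 2 * cnt j true D := by
  rw [mm_eq j true, cnt]
  congr 2
  apply filter_congr
  intro x hx
  exact ⟨fun h1 => h1.1, fun h1 => ⟨h1, h x hx h1⟩⟩

lemma mm_fib {n k : ℕ} {D : Finset ℕ} (hD : ∀ x ∈ D, x < 2 ^ n) (j : ℕ) :
    mm j D = ∑ h ∈ range (2 ^ n),
      ((D.filter (fun x => x / 2 ^ k = h)).filter (fun x => fl j x ∈ D)).card := by
  unfold mm
  rw [card_filter, sum_fib (k := k) hD]
  apply sum_congr rfl; intro h _
  rw [card_filter (fun x => fl j x ∈ D)]

lemma EE_comp_lo {n k : ℕ} {A : Finset ℕ} (hA : ∀ x ∈ A, x < 2 ^ n) (hk : k ≤ n) :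
    EE (range k) A ≤ EE (range k) (comp n k A) := by
  have h1 : EE (range k) (comp n k A) = ∑ h ∈ range (2 ^ n), 2 * phi (wt k A h) := by
    unfold EE
    rw [sum_congr rfl (fun j hj => mm_down (comp_down hA hk (mem_range.1 hj))), ← mul_sum,
      ← mul_sum]
    congr 1
    unfold phi cnt
    rw [← sum_comp hA hk (fun l _ => pc l)]
    simp only [card_filter]
    rw [sum_comm]
    apply sum_congr rfl; intro x _
    rw [pc_eq_sum k _ (Nat.mod_lt _ (by positivity))]
    apply sum_congr rfl; intro j hj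
    rw [Nat.testBit_mod_two_pow]; simp [mem_range.1 hj]
  have h2 : EE (range k) A =
      ∑ h ∈ range (2 ^ n), EE (range k) (A.filter (fun x => x / 2 ^ k = h)) := by
    unfold EE
    rw [sum_comm]
    apply sum_congr rfl; intro j hj
    rw [mm_fib (k := k) hA]
    apply sum_congr rfl; intro h _
    unfold mm
    congr 1
    apply filter_congr
    intro x hx
    simp only [mem_filter] at hx ⊢
    rw [fl_div_lo (mem_range.1 hj)]
    tauto
  rw [h1, h2]
  exact sum_le_sum (fun h _ => iso _ _)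

lemma mm_comp_hi {n k j : ℕ} {A : Finset ℕ} (hA : ∀ x ∈ A, x < 2 ^ n) (hk : k ≤ n) (hj : k ≤ j) :
    mm j A ≤ mm j (comp n k A) := by
  have h1 : mm j (comp n k A) =
      ∑ h ∈ range (2 ^ n), min (wt k A h) (wt k A (fl (j - k) h)) := by
    have := sum_comp hA hk (fun l h => if l < wt k A (fl (j - k) h) then 1 else 0)
    unfold mm
    rw [card_filter]
    simp only [mem_comp hA hk, fl_div_hi hj, fl_mod_hi hj]
    rw [this]
    apply sum_congr rfl; intro h _
    rw [← card_filter, ← card_range (min _ _)]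
    congr 1
    ext l; simp
  rw [h1, mm_fib (k := k) hA]
  apply sum_le_sum
  intro h _
  apply le_min (card_filter_le _ _)
  unfold wt
  apply card_le_card_of_injOn (fl j)
  · intro x hx
    simp only [coe_filter, mem_filter, Set.mem_ofPred_eq] at hx ⊢
    exact ⟨hx.2, by rw [fl_div_hi hj, hx.1.2]⟩
  · exact (fl_inj j).injOn

lemma Good.comp {n t k : ℕ} {A : Finset ℕ} (h : Good n t A) (hk : k ≤ n) :
    Good n t (comp n k A) := by
  refine ⟨comp_lt, by rw [card_comp h.lt hk, h.card], ?_⟩
  have h1 := EE_comp_lo h.lt hk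
  have h2 : ∑ j ∈ Ico k n, mm j A ≤ ∑ j ∈ Ico k n, mm j (MP_ab80ef_co.comp n k A) :=
    sum_le_sum (fun j hj => mm_comp_hi h.lt hk (mem_Ico.1 hj).1)
  have h3 := h.many
  unfold EE at *
  rw [← sum_range_add_sum_Ico _ hk] at h3 ⊢
  omega

lemma comp_zero {n : ℕ} {A : Finset ℕ} (hA : ∀ x ∈ A, x < 2 ^ n) : comp n 0 A = A := by
  ext x
  rw [mem_comp hA (Nat.zero_le _)]
  simp only [pow_zero, Nat.mod_one, Nat.div_one, wt, card_pos]
  constructor
  · rintro ⟨y, hy⟩
    rw [mem_filter] at hy
    rw [← hy.2]; exact hy.1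
  · intro hx; exact ⟨x, mem_filter.2 ⟨hx, rfl⟩⟩

lemma wt_le_succ (k : ℕ) (A : Finset ℕ) (x : ℕ) :
    wt k A (x / 2 ^ k) ≤ wt (k + 1) A (x / 2 ^ (k + 1)) := by
  apply card_le_card
  intro y hy
  simp only [mem_filter] at hy ⊢
  refine ⟨hy.1, ?_⟩
  rw [pow_succ, ← Nat.div_div_eq_div_mul, ← Nat.div_div_eq_div_mul, hy.2]

lemma mod_succ_of_false {k x : ℕ} (h : x.testBit k = false) : x % 2 ^ (k + 1) = x % 2 ^ k := by
  apply Nat.eq_of_testBit_eq; intro i
  rw [Nat.testBit_mod_two_pow, Nat.testBit_mod_two_pow]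
  rcases lt_trichotomy i k with h1 | rfl | h1
  · have : i < k + 1 := by omega
    simp [h1, this]
  · simp [h]
  · have h2 : ¬ i < k + 1 := by omega
    have h3 : ¬ i < k := by omega
    simp [h2, h3]

lemma cnt_comp_succ {n k j : ℕ} {A : Finset ℕ} (hA : ∀ x ∈ A, x < 2 ^ n) (hk : k + 1 ≤ n)
    (hj : j < k) : cnt j true (comp n k A) ≤ 2 * cnt j true (comp n (k + 1) A) := by
  unfold cnt
  rw [← card_filter_add_card_filter_not (s := (comp n k A).filter (fun x => x.testBit j = true))
    (fun x => x.testBit k = true), two_mul]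
  apply add_le_add
  · apply card_le_card_of_injOn (fl k)
    · intro x hx
      simp only [coe_filter, mem_filter, Set.mem_ofPred_eq, mem_comp hA hk,
        mem_comp hA (by omega : k ≤ n)] at hx ⊢
      refine ⟨?_, by rw [testBit_fl_ne x (by omega)]; exact hx.1.2⟩
      rw [mod_succ_of_false (by simp [hx.2]), fl_mod_hi le_rfl, fl_div_lo (by omega)]
      exact lt_of_lt_of_le hx.1.1 (wt_le_succ k A x)
    · exact (fl_inj k).injOn
  · apply card_le_card
    intro x hx
    simp only [mem_filter, mem_comp hA hk, mem_comp hA (by omega : k ≤ n)] at hx ⊢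
    refine ⟨?_, hx.1.2⟩
    rw [mod_succ_of_false (by simpa using hx.2)]
    exact lt_of_lt_of_le hx.1.1 (wt_le_succ k A x)

lemma Good.bal_comp_succ {n t k : ℕ} {A : Finset ℕ} (h : Good n t A) (hk : k + 1 ≤ n) :
    (bal n t (MP_ab80ef_co.comp n k A)).card ≤ (bal n t (MP_ab80ef_co.comp n (k + 1) A)).card + 1 := by
  have hs : bal n t (MP_ab80ef_co.comp n k A) ⊆
      insert k (bal n t (MP_ab80ef_co.comp n (k + 1) A)) := by
    intro j hj
    simp only [bal, mem_filter, mem_insert] at hj ⊢
    rcases lt_trichotomy j k with h1 | h1 | h1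
    · right
      refine ⟨hj.1, ?_⟩
      have a1 := cnt_comp_succ h.lt hk h1
      have a2 := (h.comp hk).dich_cnt j true
      have a3 := mm_down (comp_down h.lt hk (by omega : j < k + 1))
      have a4 := mm_le j false (MP_ab80ef_co.comp n (k + 1) A)
      omega
    · left; exact h1
    · right
      rw [cnt_comp h.lt (by omega) h1.le, cnt_comp h.lt (by omega) h1.le] at hj
      rw [cnt_comp h.lt hk h1, cnt_comp h.lt hk h1]
      exact hj
  exact le_trans (card_le_card hs) (card_insert_le _ _)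

lemma Good.bal_comp_top {n t : ℕ} {A : Finset ℕ} (h : Good n t A) :
    (bal n t (MP_ab80ef_co.comp n n A)).card ≤ t := by
  rw [← card_range t]
  apply card_le_card
  intro j hj
  simp only [bal, mem_filter, card_range] at hj
  rw [mem_range]
  by_contra hc
  have : cnt j true (MP_ab80ef_co.comp n n A) = 0 := by
    unfold cnt
    rw [card_eq_zero, filter_eq_empty_iff]
    intro x hx
    have h1 := comp_lt x hx
    rw [mem_comp h.lt le_rfl, Nat.mod_eq_of_lt h1] at hx
    have h2 : wt n A (x / 2 ^ n) ≤ 2 ^ t := by rw [← h.card]; exact card_filter_le _ _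
    have h3 : 2 ^ t ≤ 2 ^ j := Nat.pow_le_pow_right (by norm_num) (by omega)
    rw [Nat.testBit_lt_two_pow (by omega)]; simp
  omega

theorem Good.card_bal {n t : ℕ} {A : Finset ℕ} (h : Good n t A) : (bal n t A).card = t := by
  by_contra hc
  have h1 := h.le_card_bal
  have key : ∀ k, k ≤ n → t + 1 ≤ (bal n t (MP_ab80ef_co.comp n k A)).card := by
    intro k
    induction k with
    | zero => intro _; rw [comp_zero h.lt]; omega
    | succ k ih =>
      intro hk
      have a1 := ih (by omega)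
      have a2 := (h.comp (by omega : k ≤ n)).card_bal_ne
      have a3 := h.bal_comp_succ hk
      omega
  have := key n le_rfl
  have := h.bal_comp_top
  omega

/-- the lower bound, on natural numbers -/
theorem lower_nat (n t j : ℕ) (hj : 1 ≤ j) (A : Finset ℕ) (hA : ∀ x ∈ A, x < 2 ^ n)
    (hc : A.card = 2 ^ t)
    (hfar : ∀ B ⊆ range n, ∀ a, 2 ^ t ≤ 2 ^ j * (symmDiff A (cube n B a)).card) :
    2 ^ j * EE (range n) A + j * 2 ^ t ≤ 2 ^ j * (t * 2 ^ t) := by
  by_cases hg : 2 * t * 2 ^ t < 2 * EE (range n) A + 2 ^ t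
  · have h : Good n t A := ⟨hA, hc, hg⟩
    have hBn : bal n t A ⊆ range n := filter_subset _ _
    have h1 := hfar _ hBn (maj A)
    have h2 := h.chain _ (Subset.refl _)
    have h3 := card_cube n (maj A) _ hBn
    rw [h.card_bal] at h3
    have h4 : (symmDiff A (cube n (bal n t A) (maj A))).card =
        2 * outside (range n \ bal n t A) (maj A) A := by
      have e1 : A \ cube n (bal n t A) (maj A) =
          A.filter (fun x => ¬ Agr (range n \ bal n t A) (maj A) x) := by
        ext x
        simp only [cube, mem_sdiff, mem_filter, mem_range]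
        constructor
        · rintro ⟨a1, a2⟩; exact ⟨a1, fun a3 => a2 ⟨hA x a1, a3⟩⟩
        · rintro ⟨a1, a2⟩; exact ⟨a1, fun a3 => a2 a3.2⟩
      have e2 : (cube n (bal n t A) (maj A) \ A).card = (A \ cube n (bal n t A) (maj A)).card :=
        card_sdiff_comm (by rw [h3, hc])
      rw [symmDiff_def, sup_eq_union, card_union_of_disjoint disjoint_sdiff_sdiff, e2, e1]
      unfold outside; ring
    rw [h4] at h1
    set x := outside (range n \ bal n t A) (maj A) A with hx
    rcases t with _ | s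
    · have : x = 0 := by omega
      rw [this] at h1; simp at h1
    obtain ⟨i, rfl⟩ : ∃ i, j = i + 1 := ⟨j - 1, by omega⟩
    have h5 := deficit_ge (range n) (range n \ bal n (s + 1) A) (maj A) A s hc
    have h6 := tau_lower i s x (by rw [pow_succ 2 s] at h1; nlinarith)
      (by rw [pow_succ] at h2; omega)
    rw [← hx] at h5
    have h7 : (0 : ℤ) < 2 ^ (i + 1) := by positivity
    have h8 := mul_le_mul_of_nonneg_left h5 h7.le
    have h9 : ((2 ^ (i + 1) * EE (range n) A + (i + 1) * 2 ^ (s + 1) : ℕ) : ℤ) ≤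
        ((2 ^ (i + 1) * ((s + 1) * 2 ^ (s + 1)) : ℕ) : ℤ) := by
      push_cast at h6 ⊢
      rw [pow_succ 2 s] at *
      nlinarith
    exact_mod_cast h9
  · have h1 := two_mul_le_two_pow j hj
    have h2 : 2 * EE (range n) A + 2 ^ t ≤ 2 * t * 2 ^ t := by omega
    have h3 := Nat.mul_le_mul_left (2 ^ j) h2
    have h4 := Nat.mul_le_mul_left (2 ^ t) h1
    nlinarith

end Pool.Agent.MP_ab80ef_co

end

section

/- Transfer to `Fin n → Bool`, the extremal examples, and the main theorem. -/

namespace Pool.Agent.MP_ab80ef_co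

open Finset

/-- binary encoding -/
def enc {n : ℕ} (x : Fin n → Bool) : ℕ := Nat.ofBits x

lemma enc_lt {n : ℕ} (x : Fin n → Bool) : enc x < 2 ^ n := Nat.ofBits_lt_two_pow _

lemma testBit_enc {n : ℕ} (x : Fin n → Bool) (i : Fin n) : (enc x).testBit i = x i := by
  unfold enc; rw [Nat.testBit_ofBits_lt _ _ i.2]

lemma enc_inj {n : ℕ} : Function.Injective (enc (n := n)) := by
  intro x y h
  funext i
  rw [← testBit_enc x i, ← testBit_enc y i, h]

lemma enc_surj {n y : ℕ} (hy : y < 2 ^ n) : ∃ x : Fin n → Bool, enc x = y := by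
  refine ⟨fun i => y.testBit i, eq_of_bits (enc_lt _) hy ?_⟩
  intro i hi
  exact testBit_enc _ ⟨i, hi⟩

/-- flip one coordinate -/
def flp {n : ℕ} (i : Fin n) (x : Fin n → Bool) : Fin n → Bool := Function.update x i (!x i)

lemma enc_flp {n : ℕ} (i : Fin n) (x : Fin n → Bool) : enc (flp i x) = fl i (enc x) := by
  apply eq_of_bits (enc_lt _) (fl_lt i.2 (enc_lt _))
  intro j hj
  have := testBit_enc (flp i x) ⟨j, hj⟩
  simp only at this
  rw [this]
  by_cases h : i = ⟨j, hj⟩
  · subst h
    rw [testBit_fl_self, testBit_enc x ⟨j, hj⟩]; simp [flp]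
  · rw [testBit_fl_ne _ (fun h2 => h (Fin.ext h2)), testBit_enc x ⟨j, hj⟩]
    simp [flp, Function.update_of_ne (Ne.symm h)]

lemma adj_iff {n : ℕ} (x y : Fin n → Bool) : hammingDist x y = 1 ↔ ∃ i, y = flp i x := by
  unfold hammingDist
  rw [card_eq_one]
  constructor
  · rintro ⟨i, hi⟩
    refine ⟨i, funext fun j => ?_⟩
    have h := Finset.ext_iff.1 hi j
    simp only [mem_filter, mem_univ, true_and, mem_singleton] at h
    by_cases hj : j = i
    · subst hj
      have := h.2 rfl
      simp only [flp, Function.update_self]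
      revert this; cases x j <;> cases y j <;> simp
    · simp only [flp, Function.update_of_ne hj]
      by_contra hc
      exact hj (h.1 (Ne.symm hc))
  · rintro ⟨i, rfl⟩
    refine ⟨i, ?_⟩
    ext j
    simp only [mem_filter, mem_univ, true_and, mem_singleton]
    by_cases hj : j = i
    · subst hj; simp [flp]
    · simp [flp, hj]

lemma boundary_card {n : ℕ} (A : Finset (Fin n → Bool)) :
    (edgeBoundary A).ncard + EE (range n) (A.image enc) = n * A.card := by
  classical
  set P := (univ ×ˢ A).filter (fun p : Fin n × (Fin n → Bool) => flp p.1 p.2 ∉ A) with hP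
  have e : edgeBoundary A = ↑(P.image (fun p => s(p.2, flp p.1 p.2))) := by
    ext e
    simp only [edgeBoundary, Set.mem_ofPred_eq, coe_image, Set.mem_image, mem_coe, hP, mem_filter,
      mem_product, mem_univ, true_and]
    constructor
    · rintro ⟨h1, x, y, rfl, hx, hy⟩
      obtain ⟨i, rfl⟩ := (adj_iff x y).1 h1
      exact ⟨(i, x), ⟨hx, hy⟩, rfl⟩
    · rintro ⟨⟨i, x⟩, ⟨hx, hy⟩, rfl⟩
      exact ⟨(adj_iff _ _).2 ⟨i, rfl⟩, x, _, rfl, hx, hy⟩
  have inj : Set.InjOn (fun p : Fin n × (Fin n → Bool) => s(p.2, flp p.1 p.2)) P := by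
    rintro ⟨i, x⟩ h1 ⟨j, y⟩ h2 h
    simp only [hP, coe_filter, mem_product, mem_univ, true_and, Set.mem_ofPred_eq] at h1 h2
    simp only [Sym2.eq_iff] at h
    rcases h with ⟨rfl, h⟩ | ⟨h, _⟩
    · have : i = j := by
        by_contra hc
        have := congrFun h i
        simp [flp, Function.update_of_ne hc] at this
      rw [this]
    · exact absurd (h ▸ h1.1) h2.2
  rw [e, Set.ncard_coe_finset, card_image_of_injOn inj]
  have e2 : P.card = ∑ i : Fin n, (A.filter (fun x => flp i x ∉ A)).card := by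
    rw [hP, card_filter, sum_product]
    apply sum_congr rfl; intro i _
    rw [card_filter]
  have e3 : EE (range n) (A.image enc) = ∑ i : Fin n, (A.filter (fun x => flp i x ∈ A)).card := by
    unfold EE
    rw [← Fin.sum_univ_eq_sum_range (fun i => mm i (A.image enc))]
    apply sum_congr rfl; intro i _
    unfold mm
    rw [filter_image, card_image_of_injective _ enc_inj]
    congr 1
    apply filter_congr; intro x _
    rw [← enc_flp, enc_inj.mem_finset_image]
  rw [e2, e3, ← sum_add_distrib]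
  rw [sum_congr rfl (g := fun _ => A.card)]
  · simp
  · intro i _
    rw [add_comm]; exact card_filter_add_card_filter_not (s := A) _

lemma excess_eq {n t : ℕ} (A : Finset (Fin n → Bool)) (h : A.card = 2 ^ t) :
    excess A = (t * 2 ^ t - EE (range n) (A.image enc)) / 2 ^ t := by
  have h1 : (((edgeBoundary A).ncard + EE (range n) (A.image enc) : ℕ) : ℝ) =
      ((n * A.card : ℕ) : ℝ) := by rw [boundary_card]
  unfold excess
  rw [h] at h1 ⊢
  push_cast at h1 ⊢
  rw [Real.logb_div (by positivity) (by positivity), Real.logb_pow, Real.logb_pow,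
    Real.logb_self_eq_one (by norm_num)]
  congr 1
  linarith

lemma subcube_image {n : ℕ} (C : Finset (Fin n → Bool)) (hC : IsSubcube C) :
    ∃ B ⊆ range n, ∃ a, C.image enc = cube n B a := by
  classical
  obtain ⟨S, a, h⟩ := hC
  refine ⟨range n \ S.image Fin.val, sdiff_subset,
    fun i => if hi : ∃ s : S, (s.1 : ℕ) = i then a hi.choose else false, ?_⟩
  have hb : ∀ s : S, (if hi : ∃ s' : S, (s'.1 : ℕ) = s.1 then a hi.choose else false) = a s := by
    intro s
    have hi : ∃ s' : S, (s'.1 : ℕ) = s.1 := ⟨s, rfl⟩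
    rw [dif_pos hi]
    congr 1
    exact Subtype.ext (Fin.ext hi.choose_spec)
  ext y
  simp only [cube, mem_image, mem_filter, mem_range, Agr, mem_sdiff, not_and, not_not]
  constructor
  · rintro ⟨x, hx, rfl⟩
    refine ⟨enc_lt x, fun i hi => ?_⟩
    obtain ⟨s, hs, rfl⟩ := hi.2 hi.1
    rw [testBit_enc, (h x).1 hx ⟨s, hs⟩]
    exact (hb ⟨s, hs⟩).symm
  · rintro ⟨h1, h2⟩
    obtain ⟨x, rfl⟩ := enc_surj h1
    refine ⟨x, (h x).2 (fun s => ?_), rfl⟩
    rw [← testBit_enc x, h2 s.1 ⟨s.1.2, fun _ => ⟨s.1, s.2, rfl⟩⟩]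
    exact hb s

lemma image_subcube {n : ℕ} (B : Finset ℕ) (a : ℕ → Bool) :
    ∃ C : Finset (Fin n → Bool), IsSubcube C ∧ C.image enc = cube n B a := by
  refine ⟨univ.filter (fun x => ∀ i : Fin n, (i : ℕ) ∉ B → x i = a i),
    ⟨univ.filter (fun i : Fin n => (i : ℕ) ∉ B), fun s => a s.1, fun x => ?_⟩, ?_⟩
  · simp
  · ext y
    simp only [cube, mem_image, mem_filter, mem_range, Agr, mem_sdiff, mem_univ, true_and]
    constructor
    · rintro ⟨x, hx, rfl⟩
      refine ⟨enc_lt x, fun i hi => ?_⟩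
      rw [testBit_enc x ⟨i, hi.1⟩]
      exact hx ⟨i, hi.1⟩ hi.2
    · rintro ⟨h1, h2⟩
      obtain ⟨x, rfl⟩ := enc_surj h1
      refine ⟨x, fun i hi => ?_, rfl⟩
      rw [← testBit_enc x]
      exact h2 i ⟨i.2, hi⟩

lemma card_symmDiff_image {n : ℕ} (A C : Finset (Fin n → Bool)) :
    (symmDiff (A.image enc) (C.image enc)).card = (symmDiff A C).card := by
  rw [← image_symmDiff _ _ enc_inj, card_image_of_injective _ enc_inj]

theorem lower_bound (j : ℕ) (hj : 1 ≤ j) (r : ℝ) (hr : r ∈ excessValues (1 / 2 ^ j)) :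
    j / 2 ^ j ≤ r := by
  obtain ⟨n, A, -, ⟨t, ht⟩, hfar, rfl⟩ := hr
  have h := lower_nat n t j hj (A.image enc)
    (by intro y hy; obtain ⟨x, _, rfl⟩ := mem_image.1 hy; exact enc_lt x)
    (by rw [card_image_of_injective _ enc_inj, ht])
    (by
      intro B _ a
      obtain ⟨C, hC, e⟩ := image_subcube (n := n) B a
      have h1 := hfar C hC
      rw [← e, card_symmDiff_image]
      rw [ht, div_mul_eq_mul_div, one_mul, div_le_iff₀ (by positivity), mul_comm] at h1
      exact_mod_cast h1)
  rw [excess_eq A ht, div_le_div_iff₀ (by positivity) (by positivity)]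
  have h2 : ((2 ^ j * EE (range n) (A.image enc) + j * 2 ^ t : ℕ) : ℝ) ≤
      ((2 ^ j * (t * 2 ^ t) : ℕ) : ℝ) := by exact_mod_cast h
  push_cast at h2
  linarith

/-- a `t`-dimensional subcube with one point moved to a pendant position -/
def ex (t : ℕ) : Finset ℕ := insert (2 ^ t) ((range (2 ^ t)).erase (2 ^ t - 1))

lemma card_ex (t : ℕ) : (ex t).card = 2 ^ t := by
  have : 0 < 2 ^ t := by positivity
  rw [ex, card_insert_of_notMem (by simp), card_erase_of_mem (by simp), card_range]
  omega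

lemma ex_lt (t : ℕ) : ∀ x ∈ ex t, x < 2 ^ (t + 1) := by
  intro x hx
  have : 0 < 2 ^ t := by positivity
  simp only [ex, mem_insert, mem_erase, mem_range] at hx
  rw [pow_succ]; omega

lemma EE_ex (t : ℕ) (ht : 1 ≤ t) : t * 2 ^ t + 2 ≤ EE (range (t + 1)) (ex t) + 2 * t := by
  have h2 : 2 ≤ 2 ^ t := by
    calc 2 = 2 ^ 1 := by norm_num
      _ ≤ 2 ^ t := Nat.pow_le_pow_right (by norm_num) ht
  have h1 : ∀ i ∈ range t, 2 ^ t ≤ mm i (ex t) + 2 := by
    intro i hi
    have hs : ((range (2 ^ t)).erase (2 ^ t - 1)).erase (fl i (2 ^ t - 1)) ⊆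
        (ex t).filter (fun x => fl i x ∈ ex t) := by
      intro x hx
      simp only [ex, mem_erase, mem_range, mem_filter, mem_insert] at hx ⊢
      refine ⟨Or.inr hx.2, Or.inr ⟨?_, fl_lt (mem_range.1 hi) hx.2.2⟩⟩
      intro h
      apply hx.1
      rw [← h, fl_fl]
    have a1 := card_le_card hs
    have a2 := pred_card_le_card_erase (s := (range (2 ^ t)).erase (2 ^ t - 1))
      (a := fl i (2 ^ t - 1))
    have a3 := pred_card_le_card_erase (s := range (2 ^ t)) (a := 2 ^ t - 1)
    rw [card_range] at a3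
    unfold mm
    omega
  have h3 : 2 ≤ mm t (ex t) := by
    have hs : ({0, 2 ^ t} : Finset ℕ) ⊆ (ex t).filter (fun x => fl t x ∈ ex t) := by
      intro x hx
      simp only [ex, mem_erase, mem_range, mem_filter, mem_insert, mem_singleton] at hx ⊢
      rcases hx with rfl | rfl
      · exact ⟨Or.inr ⟨by omega, by omega⟩, Or.inl (by simp [fl])⟩
      · refine ⟨Or.inl rfl, Or.inr ?_⟩
        have : fl t (2 ^ t) = 0 := by simp [fl]
        rw [this]; omega
    have a1 := card_le_card hs
    rw [card_pair (by omega)] at a1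
    exact a1
  have h4 := sum_le_sum h1
  rw [sum_const, card_range, sum_add_distrib, sum_const, card_range] at h4
  unfold EE
  rw [sum_range_succ]
  simp only [smul_eq_mul] at h4
  omega

lemma ex_far (t : ℕ) (ht : 2 ≤ t) (B : Finset ℕ) (hB : B ⊆ range (t + 1)) (a : ℕ → Bool) :
    2 ≤ (symmDiff (ex t) (cube (t + 1) B a)).card := by
  have h4 : 4 ≤ 2 ^ t := by
    calc 4 = 2 ^ 2 := by norm_num
      _ ≤ 2 ^ t := Nat.pow_le_pow_right (by norm_num) ht
  have h1 := card_cube (t + 1) a B hB
  have h2 := card_ex t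
  rw [symmDiff_def, sup_eq_union, card_union_of_disjoint disjoint_sdiff_sdiff]
  have a1 := le_card_sdiff (ex t) (cube (t + 1) B a)
  have a2 := le_card_sdiff (cube (t + 1) B a) (ex t)
  rw [h1, h2] at a1 a2
  rcases lt_trichotomy B.card t with h | h | h
  · have : 2 ^ (B.card + 1) ≤ 2 ^ t := Nat.pow_le_pow_right (by norm_num) h
    rw [pow_succ] at this; omega
  · have e : (cube (t + 1) B a \ ex t).card = (ex t \ cube (t + 1) B a).card :=
      card_sdiff_comm (by rw [h1, h2, h])
    by_contra hc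
    have z1 : (ex t \ cube (t + 1) B a).card = 0 := by omega
    have z2 : (cube (t + 1) B a \ ex t).card = 0 := by omega
    rw [card_eq_zero, sdiff_eq_empty_iff_subset] at z1 z2
    have m1 : 1 ∈ cube (t + 1) B a := z1 (by
      simp only [ex, mem_erase, mem_range, mem_insert]; omega)
    have m2 : 2 ^ t ∈ cube (t + 1) B a := z1 (by simp [ex])
    have m3 : fl 0 (2 ^ t) ∈ cube (t + 1) B a := by
      simp only [cube, mem_filter, mem_range, Agr] at m1 m2 ⊢
      refine ⟨fl_lt (by omega) m2.1, fun i hi => ?_⟩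
      have b1 := m1.2 i hi
      have b2 := m2.2 i hi
      have hi0 : 0 ≠ i := by
        rintro rfl
        rw [← b1, Nat.testBit_two_pow_of_ne (by omega)] at b2
        simp at b2
      rw [testBit_fl_ne _ hi0, b2]
    have m4 := z2 m3
    simp only [ex, mem_erase, mem_range, mem_insert] at m4
    rcases m4 with m4 | m4
    · have := testBit_fl_self 0 (2 ^ t)
      rw [m4] at this
      simp at this
    · have := testBit_fl_ne (i := 0) (j := t) (2 ^ t) (by omega)
      rw [Nat.testBit_lt_two_pow m4.2] at this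
      simp at this
  · have : 2 ^ (t + 1) ≤ 2 ^ B.card := Nat.pow_le_pow_right (by norm_num) h
    rw [pow_succ] at this; omega

theorem attained (j : ℕ) (hj : 1 ≤ j) : (j / 2 ^ j : ℝ) ∈ excessValues (1 / 2 ^ j) := by
  set A : Finset (Fin (j + 1 + 1) → Bool) := univ.filter (fun x => enc x ∈ ex (j + 1)) with hA
  have e : A.image enc = ex (j + 1) := by
    ext y
    simp only [hA, mem_image, mem_filter, mem_univ, true_and]
    constructor
    · rintro ⟨x, hx, rfl⟩; exact hx
    · intro hy
      obtain ⟨x, rfl⟩ := enc_surj (ex_lt _ y hy)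
      exact ⟨x, hy, rfl⟩
  have hc : A.card = 2 ^ (j + 1) := by
    rw [← card_image_of_injective _ enc_inj, e, card_ex]
  have hfar : ∀ C : Finset (Fin (j + 1 + 1) → Bool), IsSubcube C →
      (1 / 2 ^ j : ℝ) * A.card ≤ (symmDiff A C).card := by
    intro C hC
    obtain ⟨B, hB, a, e2⟩ := subcube_image C hC
    have h1 := ex_far (j + 1) (by omega) B hB a
    rw [← e, ← e2, card_symmDiff_image] at h1
    have h2 : (2 : ℝ) ≤ (symmDiff A C).card := by exact_mod_cast h1
    rw [hc]
    push_cast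
    rw [pow_succ]
    field_simp
    exact h2
  have hm : excess A ∈ excessValues (1 / 2 ^ j) :=
    ⟨j + 1 + 1, A, by omega, ⟨j + 1, hc⟩, hfar, rfl⟩
  have h1 := lower_bound j hj _ hm
  have h2 : excess A ≤ j / 2 ^ j := by
    rw [excess_eq A hc, e, div_le_div_iff₀ (by positivity) (by positivity)]
    have h3 : (((j + 1) * 2 ^ (j + 1) + 2 : ℕ) : ℝ) ≤
        ((EE (range (j + 1 + 1)) (ex (j + 1)) + 2 * (j + 1) : ℕ) : ℝ) := by
      exact_mod_cast EE_ex (j + 1) (by omega)
    push_cast at h3 ⊢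
    have h4 : (0 : ℝ) < 2 ^ j := by positivity
    rw [pow_succ] at h3 ⊢
    nlinarith
  rw [le_antisymm h1 h2]
  exact hm

theorem main (j : ℕ) (hj : 1 ≤ j) :
    IsLeast (excessValues ((2 : ℝ) ^ (-(j : ℤ)))) (j * (2 : ℝ) ^ (-(j : ℤ))) := by
  have e : (2 : ℝ) ^ (-(j : ℤ)) = 1 / 2 ^ j := by simp
  rw [e, mul_one_div]
  exact ⟨attained j hj, fun r hr => lower_bound j hj r hr⟩

end Pool.Agent.MP_ab80ef_co

end
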